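import Pool.Agent.V11163.DG.Maps
import Pool.Agent.TH700.PA.Density
import Pool.Agent.TH700.PA.Count
import Pool.Agent.TH700.PA.GameTight

/-!
# Mixtures of satisfiable `d`-to-1 games have small value, and read-once tensor networks
-/

set_option autoImplicit false

open Finset

namespace Pool.Agent.V11163.DG

open Pool.Agent.TH700.PA (Net mixp rand_density exists_product Vx prod_ite_pow choose_mul_pow_le)

variable {n d q t : ℕ}

/-- The labelings. -/
abbrev Lb (n d q : ℕ) : Type := (Fin n → Fin (d * q)) × (Fin n → Fin q)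

/-- The patterns: a labeling and arbitrary maps. -/
abbrev Pat (n d q : ℕ) : Type := Lb n d q × (Fin n × Fin n → DToOne d q)

/-- The game of a pattern: the maps corrected so that the labeling satisfies all edges. -/
def gm (P : Pat n d q) : Fin n × Fin n → DToOne d q :=
  fun e => fix (P.2 e) (P.1.1 e.1) (P.1.2 e.2)

theorem gm_valueOne (P : Pat n d q) : ValueOne (gm P) :=
  ⟨P.1.1, P.1.2, fun _ => fix_self _ _ _⟩

/-- Agreement at both ends. -/
def Ag (p : Fin n × Fin n → Fin t) (b : Fin t → Pat n d q) (β : Lb n d q) (e : Fin n × Fin n) :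
    Prop :=
  (b (p e)).1.1 e.1 = β.1 e.1 ∧ (b (p e)).1.2 e.2 = β.2 e.2

/-- Accidental satisfaction. -/
def Ac (p : Fin n × Fin n → Fin t) (b : Fin t → Pat n d q) (β : Lb n d q) (e : Fin n × Fin n) :
    Prop :=
  (b (p e)).1.1 e.1 ≠ β.1 e.1 ∧ (gm (b (p e)) e).1 (β.1 e.1) = β.2 e.2

theorem satd_cases {p : Fin n × Fin n → Fin t} {b : Fin t → Pat n d q} {β : Lb n d q}
    {e : Fin n × Fin n} (h : Satd (mixp p gm b) β.1 β.2 e) : Ag p b β e ∨ Ac p b β e := by
  unfold Satd mixp at h
  by_cases h1 : (b (p e)).1.1 e.1 = β.1 e.1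
  · refine Or.inl ⟨h1, ?_⟩
    have h' : (gm (b (p e)) e).1 (β.1 e.1) = β.2 e.2 := h
    rw [← h', ← h1]
    exact (fix_self _ _ _).symm
  · exact Or.inr ⟨h1, h⟩

/-- Agreement of labelings at a vertex. -/
def Agr (P β : Lb n d q) : Vx n → Prop
  | Sum.inl u => P.1 u = β.1 u
  | Sum.inr v => P.2 v = β.2 v

open Classical in
/-- The coincidences of the labelings with `β`. -/
noncomputable def Co (b : Fin t → Pat n d q) (β : Lb n d q) : Finset (Fin t × Vx n) :=
  univ.filter (fun s => Agr (b s.1).1 β s.2)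

open Classical in
theorem card_ag {y : ℕ} (p : Fin n × Fin n → Fin t)
    (hb : ∀ j, (univ.filter (fun e => p e = j)).card ≤ 2 * y ^ 2) (b : Fin t → Pat n d q)
    (β : Lb n d q) : (univ.filter (fun e => Ag p b β e)).card ≤ 2 * y * (Co b β).card := by
  have h1 : (univ.filter (fun e => Ag p b β e)).card =
      ∑ j, ((univ.filter (fun e => Ag p b β e)).filter (fun e => p e = j)).card :=
    card_eq_sum_card_fiberwise (fun _ _ => mem_univ _)
  have h2 : (Co b β).card = ∑ j, ((Co b β).filter (fun s => s.1 = j)).card :=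
    card_eq_sum_card_fiberwise (fun _ _ => mem_univ _)
  rw [h1, h2, mul_sum]
  refine sum_le_sum fun j _ => ?_
  have h3 : ((univ.filter (fun e => Ag p b β e)).filter (fun e => p e = j)).card ≤
      2 * y ^ 2 := by
    refine le_trans (card_le_card fun e he => ?_) (hb j)
    exact mem_filter.2 ⟨mem_univ _, (mem_filter.1 he).2⟩
  have h4 : ((univ.filter (fun e => Ag p b β e)).filter (fun e => p e = j)).card ≤
      ((Co b β).filter (fun s => s.1 = j)).card * ((Co b β).filter (fun s => s.1 = j)).card := by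
    rw [← card_product]
    refine card_le_card_of_injOn (fun e => ((j, Sum.inl e.1), (j, Sum.inr e.2)))
      (fun e he => ?_) (fun e _ e' _ hee => ?_)
    · rw [mem_coe, mem_filter, mem_filter] at he
      obtain ⟨⟨-, g1, g2⟩, rfl⟩ := he
      rw [mem_coe, mem_product]
      unfold Co
      exact ⟨mem_filter.2 ⟨mem_filter.2 ⟨mem_univ _, g1⟩, rfl⟩,
        mem_filter.2 ⟨mem_filter.2 ⟨mem_univ _, g2⟩, rfl⟩⟩
    · have e1 := congrArg (fun r => r.1.2) hee
      have e2 := congrArg (fun r => r.2.2) hee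
      exact Prod.ext (Sum.inl.inj e1) (Sum.inr.inj e2)
  obtain ⟨k, hk⟩ : ∃ k, k = ((Co b β).filter (fun s => s.1 = j)).card := ⟨_, rfl⟩
  rw [← hk] at h4 ⊢
  rcases le_total k (2 * y) with h5 | h5
  · exact h4.trans (Nat.mul_le_mul_right _ h5)
  · refine h3.trans ?_
    nlinarith

/-! ### counting -/

theorem card_lab : Fintype.card (Lb n d q) = d ^ n * q ^ (2 * n) := by
  rw [Fintype.card_prod, Fintype.card_fun, Fintype.card_fun, Fintype.card_fin, Fintype.card_fin,
    Fintype.card_fin, mul_pow, two_mul, pow_add]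
  ring

theorem card_pat : Fintype.card (Pat n d q) =
    Fintype.card (Lb n d q) * Fintype.card (DToOne d q) ^ (n * n) := by
  rw [Fintype.card_prod, Fintype.card_fun (α := Fin n × Fin n), Fintype.card_prod (Fin n) (Fin n),
    Fintype.card_fin]

open Classical in
/-- The tuples with given coincidences. -/
theorem card_coinc (hd : 1 ≤ d) (β : Lb n d q) (S : Finset (Fin t × Vx n)) :
    (univ.filter (fun b : Fin t → Pat n d q => ∀ s ∈ S, Agr (b s.1).1 β s.2)).card *
      q ^ S.card ≤ Fintype.card (Pat n d q) ^ t := by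
  obtain ⟨F, hF⟩ : ∃ F : Fin t → Finset (Pat n d q), F = fun j =>
      ((Fintype.piFinset (fun u : Fin n =>
        if (j, Sum.inl u) ∈ S then ({β.1 u} : Finset (Fin (d * q))) else univ)) ×ˢ
       (Fintype.piFinset (fun v : Fin n =>
        if (j, Sum.inr v) ∈ S then ({β.2 v} : Finset (Fin q)) else univ))) ×ˢ
          (univ : Finset (Fin n × Fin n → DToOne d q)) := ⟨_, rfl⟩
  have h1 : univ.filter (fun b : Fin t → Pat n d q => ∀ s ∈ S, Agr (b s.1).1 β s.2) ⊆
      Fintype.piFinset F := by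
    intro b hb
    rw [Fintype.mem_piFinset]
    intro j
    rw [hF]
    simp only
    rw [mem_product, mem_product, Fintype.mem_piFinset, Fintype.mem_piFinset]
    refine ⟨⟨fun u => ?_, fun v => ?_⟩, mem_univ _⟩
    · by_cases hw : (j, Sum.inl u) ∈ S
      · rw [if_pos hw, mem_singleton]
        exact (mem_filter.1 hb).2 (j, Sum.inl u) hw
      · rw [if_neg hw]
        exact mem_univ _
    · by_cases hw : (j, Sum.inr v) ∈ S
      · rw [if_pos hw, mem_singleton]
        exact (mem_filter.1 hb).2 (j, Sum.inr v) hw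
      · rw [if_neg hw]
        exact mem_univ _
  refine (Nat.mul_le_mul_right _ (card_le_card h1)).trans ?_
  rw [Fintype.card_piFinset, ← prod_ite_pow S q, Fintype.prod_prod_type, ← prod_mul_distrib]
  have h2 : ∀ j : Fin t, (F j).card * ∏ w, (if (j, w) ∈ S then q else 1) ≤
      Fintype.card (Pat n d q) := by
    intro j
    rw [hF, card_pat]
    simp only
    rw [card_product, card_product, Fintype.card_piFinset, Fintype.card_piFinset, card_univ,
      mul_right_comm, Fintype.prod_sum_type, mul_mul_mul_comm, ← prod_mul_distrib,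
      ← prod_mul_distrib, Fintype.card_fun (α := Fin n × Fin n), Fintype.card_prod (Fin n) (Fin n),
      Fintype.card_fin]
    refine Nat.mul_le_mul_right _ ?_
    rw [Fintype.card_prod, Fintype.card_fun, Fintype.card_fun]
    refine Nat.mul_le_mul ?_ ?_
    · calc ∏ u : Fin n, ((if (j, Sum.inl u) ∈ S then ({β.1 u} : Finset (Fin (d * q)))
            else univ).card * (if (j, Sum.inl u) ∈ S then q else 1)) ≤
          ∏ _u : Fin n, (d * q) := by
            refine prod_le_prod' fun u _ => ?_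
            split_ifs
            · rw [card_singleton, one_mul]
              exact Nat.le_mul_of_pos_left _ (by omega)
            · rw [card_univ, Fintype.card_fin, mul_one]
        _ = _ := by rw [prod_const, card_univ, Fintype.card_fin, Fintype.card_fin]
    · calc ∏ v : Fin n, ((if (j, Sum.inr v) ∈ S then ({β.2 v} : Finset (Fin q))
            else univ).card * (if (j, Sum.inr v) ∈ S then q else 1)) ≤
          ∏ _v : Fin n, q := by
            refine prod_le_prod' fun v _ => ?_
            split_ifs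
            · rw [card_singleton, one_mul]
            · rw [card_univ, Fintype.card_fin, mul_one]
        _ = _ := by rw [prod_const, card_univ, Fintype.card_fin, Fintype.card_fin]
  refine (prod_le_prod' fun j _ => h2 j).trans (le_of_eq ?_)
  rw [prod_const, card_univ, Fintype.card_fin]

open Classical in
/-- The tuples with given accidental satisfactions. -/
theorem card_accid (hd : 1 ≤ d) (p : Fin n × Fin n → Fin t) (β : Lb n d q) (S : Finset (Fin n × Fin n)) :
    (univ.filter (fun b : Fin t → Pat n d q => ∀ e ∈ S, Ac p b β e)).card *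
      (q - 1) ^ S.card ≤ Fintype.card (Pat n d q) ^ t := by
  obtain ⟨Q, hQ⟩ : ∃ Q, Q = univ.filter (fun b : Fin t → Pat n d q => ∀ e ∈ S, Ac p b β e) :=
    ⟨_, rfl⟩
  rw [← hQ]
  have h1 : Q.card = ∑ ℓ : Fin t → Lb n d q,
      (Q.filter (fun b => (fun j => (b j).1) = ℓ)).card :=
    card_eq_sum_card_fiberwise (f := fun (b : Fin t → Pat n d q) (j : Fin t) => (b j).1)
      (fun _ _ => mem_univ _)
  have h2 : ∀ ℓ : Fin t → Lb n d q,
      (Q.filter (fun b => (fun j => (b j).1) = ℓ)).card * (q - 1) ^ S.card ≤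
        (Fintype.card (DToOne d q) ^ (n * n)) ^ t := by
    intro ℓ
    -- the bad maps
    obtain ⟨F, hF⟩ : ∃ F : Fin t → Fin n × Fin n → Finset (DToOne d q), F = fun j e =>
        if e ∈ S ∧ p e = j then univ.filter (fun ω : DToOne d q =>
          (ℓ j).1 e.1 ≠ β.1 e.1 ∧
          (fix ω ((ℓ j).1 e.1) ((ℓ j).2 e.2)).1 (β.1 e.1) = β.2 e.2)
        else univ := ⟨_, rfl⟩
    have h3 : (Q.filter (fun b => (fun j => (b j).1) = ℓ)).card ≤
        (Fintype.piFinset (fun j => Fintype.piFinset (F j))).card := by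
      refine card_le_card_of_injOn (fun b j => (b j).2) (fun b hb => ?_) (fun b hb b' hb' h => ?_)
      · rw [mem_coe, mem_filter, hQ, mem_filter] at hb
        obtain ⟨⟨-, hb1⟩, hb2⟩ := hb
        rw [mem_coe, Fintype.mem_piFinset]
        intro j
        rw [Fintype.mem_piFinset]
        intro e
        rw [hF]
        by_cases he : e ∈ S ∧ p e = j
        · simp only [if_pos he]
          obtain ⟨he1, he2⟩ := he
          have h4 := hb1 e he1
          unfold Ac gm at h4
          rw [he2] at h4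
          have h5 : (b j).1 = ℓ j := congrFun hb2 j
          rw [h5] at h4
          exact mem_filter.2 ⟨mem_univ _, h4⟩
        · simp only [if_neg he]
          exact mem_univ _
      · rw [mem_coe, mem_filter] at hb hb'
        funext j
        have h4 : (b j).1 = (b' j).1 := (congrFun hb.2 j).trans (congrFun hb'.2 j).symm
        exact Prod.ext h4 (congrFun h j)
    refine (Nat.mul_le_mul_right _ h3).trans ?_
    have h4 : (q - 1) ^ S.card = ∏ j : Fin t, ∏ e : Fin n × Fin n,
        (if e ∈ S ∧ p e = j then (q - 1) else 1) := by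
      rw [prod_comm, ← prod_ite_pow S (q - 1)]
      refine prod_congr rfl fun e _ => ?_
      by_cases he : e ∈ S
      · simp only [he, true_and, if_true]
        rw [prod_ite_eq]
        simp
      · simp [he]
    rw [h4, Fintype.card_piFinset, ← prod_mul_distrib]
    have h5 : ∀ j : Fin t, (Fintype.piFinset (F j)).card *
        ∏ e : Fin n × Fin n, (if e ∈ S ∧ p e = j then (q - 1) else 1) ≤
          Fintype.card (DToOne d q) ^ (n * n) := by
      intro j
      rw [Fintype.card_piFinset, ← prod_mul_distrib]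
      calc ∏ e : Fin n × Fin n, ((F j e).card * (if e ∈ S ∧ p e = j then (q - 1) else 1)) ≤
          ∏ _e : Fin n × Fin n, Fintype.card (DToOne d q) := by
            refine prod_le_prod' fun e _ => ?_
            rw [hF]
            by_cases he : e ∈ S ∧ p e = j
            · simp only [if_pos he]
              by_cases hne : (ℓ j).1 e.1 = β.1 e.1
              · have h6 : univ.filter (fun ω : DToOne d q =>
                    (ℓ j).1 e.1 ≠ β.1 e.1 ∧
                    (fix ω ((ℓ j).1 e.1) ((ℓ j).2 e.2)).1 (β.1 e.1) =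
                      β.2 e.2) = ∅ := by
                  rw [filter_eq_empty_iff]
                  intro ω _ h
                  exact h.1 hne
                rw [h6, card_empty, zero_mul]
                exact Nat.zero_le _
              · rw [mul_comm]
                refine le_trans (Nat.mul_le_mul_left _ (card_le_card fun ω hω => ?_))
                  (card_fix hd hne ((ℓ j).2 e.2) (β.2 e.2))
                exact mem_filter.2 ⟨mem_univ _, (mem_filter.1 hω).2.2⟩
            · simp only [if_neg he, mul_one]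
              exact le_of_eq card_univ
        _ = _ := by
          rw [prod_const, card_univ, Fintype.card_prod, Fintype.card_fin]
    calc _ ≤ ∏ _j : Fin t, Fintype.card (DToOne d q) ^ (n * n) := prod_le_prod' fun j _ => h5 j
      _ = _ := by rw [prod_const, card_univ, Fintype.card_fin]
  rw [h1, sum_mul]
  refine (sum_le_sum fun ℓ _ => h2 ℓ).trans (le_of_eq ?_)
  rw [sum_const, card_univ, Fintype.card_fun (α := Fin t), Fintype.card_fin, smul_eq_mul, card_pat,
    mul_pow]

/-- Most mixtures have small value. -/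
theorem few_badq {g y : ℕ} (hd : 1 ≤ d) (hg : 1 ≤ g) (hn : 16 * g ≤ n) (hy : 16 * g * y ≤ n)
    (ht : t = 2048 * g ^ 2 + 1) (hq : 4 * d * (2 * t) ^ 4 + 1 ≤ q) (p : Fin n × Fin n → Fin t)
    (hb : ∀ j, (univ.filter (fun e => p e = j)).card ≤ 2 * y ^ 2) :
    ∃ B : Finset (Fin t → Pat n d q), (∀ b, ¬ ValueLe g (mixp p gm b) → b ∈ B) ∧
      B.card * (q ^ n * 2 ^ n) ≤ Fintype.card (Pat n d q) ^ t := by
  classical
  have hn1 : 1 ≤ n := by omega
  obtain ⟨s, hs⟩ : ∃ s, s = n * n / (2 * g) := ⟨_, rfl⟩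
  obtain ⟨C, hC⟩ : ∃ C, C = Fintype.card (Pat n d q) ^ t := ⟨_, rfl⟩
  rw [← hC]
  let X1 : Lb n d q → Finset (Fin t → Pat n d q) := fun β =>
    (powersetCard (4 * n) (univ : Finset (Fin t × Vx n))).biUnion (fun S =>
      univ.filter (fun b : Fin t → Pat n d q => ∀ s ∈ S, Agr (b s.1).1 β s.2))
  let X2 : Lb n d q → Finset (Fin t → Pat n d q) := fun β =>
    (powersetCard s (univ : Finset (Fin n × Fin n))).biUnion (fun S =>
      univ.filter (fun b : Fin t → Pat n d q => ∀ e ∈ S, Ac p b β e))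
  refine ⟨univ.biUnion (fun β : Lb n d q => X1 β ∪ X2 β), fun b hval => ?_, ?_⟩
  · unfold ValueLe at hval
    push Not at hval
    obtain ⟨LU, LV, hlt⟩ := hval
    rw [mem_biUnion]
    refine ⟨(LU, LV), mem_univ _, ?_⟩
    obtain ⟨β, hβ⟩ : ∃ β : Lb n d q, β = (LU, LV) := ⟨_, rfl⟩
    rw [← hβ]
    have h1 : Nat.card {e // Satd (mixp p gm b) LU LV e} ≤
        (univ.filter (fun e => Ag p b β e)).card + (univ.filter (fun e => Ac p b β e)).card := by
      rw [Nat.card_eq_fintype_card, Fintype.card_subtype]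
      refine le_trans (card_le_card fun e he => ?_) (card_union_le _ _)
      rw [mem_union, mem_filter, mem_filter]
      have h2 := (mem_filter.1 he).2
      have h3 : Satd (mixp p gm b) β.1 β.2 e := by
        rw [hβ]
        exact h2
      exact (satd_cases h3).imp (fun h => ⟨mem_univ _, h⟩) fun h => ⟨mem_univ _, h⟩
    obtain ⟨A, hA⟩ : ∃ A, A = (univ.filter (fun e => Ag p b β e)).card := ⟨_, rfl⟩
    obtain ⟨Z, hZ⟩ : ∃ Z, Z = (univ.filter (fun e => Ac p b β e)).card := ⟨_, rfl⟩
    have h2 := card_ag p hb b β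
    rw [← hA, ← hZ] at h1
    rw [← hA] at h2
    have h3 : n * n < g * (A + Z) := lt_of_lt_of_le hlt (Nat.mul_le_mul_left _ h1)
    rw [mem_union]
    rcases Nat.lt_or_ge (n * n) (2 * g * A) with h4 | h4
    · left
      have h5 : 4 * n ≤ (Co b β).card := by
        by_contra hcon
        rw [not_le] at hcon
        obtain ⟨k, hk⟩ : ∃ k, k = (Co b β).card := ⟨_, rfl⟩
        rw [← hk] at hcon h2
        have h6 : 2 * g * A ≤ 2 * g * (2 * y * k) := Nat.mul_le_mul_left _ h2
        have h7 : 4 * (n * n) < 4 * (2 * g * (2 * y * k)) := by omega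
        have h8 : 4 * (2 * g * (2 * y * k)) = (16 * g * y) * k := by ring
        have h9 : (16 * g * y) * k ≤ n * (4 * n) := Nat.mul_le_mul hy hcon.le
        rw [h8] at h7
        have h10 : n * (4 * n) = 4 * (n * n) := by ring
        omega
      obtain ⟨S, hS, hSc⟩ := exists_subset_card_eq h5
      show b ∈ X1 β
      rw [mem_biUnion]
      refine ⟨S, mem_powersetCard.2 ⟨subset_univ _, hSc⟩, mem_filter.2 ⟨mem_univ _, ?_⟩⟩
      intro r hr
      exact (mem_filter.1 (hS hr)).2
    · right
      have h5 : s ≤ (univ.filter (fun e => Ac p b β e)).card := by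
        rw [← hZ, hs]
        refine Nat.div_le_of_le_mul ?_
        have h6 : g * (A + Z) = g * A + g * Z := by ring
        have h7 : 2 * g * A = 2 * (g * A) := by ring
        have h8 : 2 * g * Z = 2 * (g * Z) := by ring
        rw [h8]
        omega
      obtain ⟨S, hS, hSc⟩ := exists_subset_card_eq h5
      show b ∈ X2 β
      rw [mem_biUnion]
      refine ⟨S, mem_powersetCard.2 ⟨subset_univ _, hSc⟩, mem_filter.2 ⟨mem_univ _, ?_⟩⟩
      intro r hr
      exact (mem_filter.1 (hS hr)).2
  · have hdd : 4 * (2 * t) ^ 4 ≤ 4 * d * (2 * t) ^ 4 := by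
      refine Nat.mul_le_mul_right _ ?_
      omega
    obtain ⟨G, hG⟩ : ∃ G, G = (d ^ n * q ^ (2 * n)) * (q ^ n * 2 ^ (n + 1)) := ⟨_, rfl⟩
    have hq1 : 1 ≤ q := by
      omega
    have ht1 : 1 ≤ t := by omega
    have hX1 : ∀ β, (X1 β).card * G ≤ C := by
      intro β
      have h1 : (X1 β).card * q ^ (4 * n) ≤ (2 * t) ^ (4 * n) * C := by
        calc (X1 β).card * q ^ (4 * n) ≤
            (∑ S ∈ powersetCard (4 * n) (univ : Finset (Fin t × Vx n)),
              (univ.filter (fun b : Fin t → Pat n d q =>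
                ∀ s ∈ S, Agr (b s.1).1 β s.2)).card) * q ^ (4 * n) :=
              Nat.mul_le_mul_right _ card_biUnion_le
          _ = ∑ S ∈ powersetCard (4 * n) (univ : Finset (Fin t × Vx n)),
              (univ.filter (fun b : Fin t → Pat n d q =>
                ∀ s ∈ S, Agr (b s.1).1 β s.2)).card * q ^ (4 * n) := by rw [sum_mul]
          _ ≤ ∑ _S ∈ powersetCard (4 * n) (univ : Finset (Fin t × Vx n)), C := by
              refine sum_le_sum fun S hS => ?_
              have h2 := card_coinc (q := q) hd β S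
              rw [(mem_powersetCard.1 hS).2, ← hC] at h2
              exact h2
          _ = (powersetCard (4 * n) (univ : Finset (Fin t × Vx n))).card * C := by
              rw [sum_const, smul_eq_mul]
          _ ≤ _ := by
              refine Nat.mul_le_mul_right _ ?_
              rw [card_powersetCard, card_univ, Fintype.card_prod, Fintype.card_sum,
                Fintype.card_fin, Fintype.card_fin]
              refine Nat.le_of_mul_le_mul_right (c := (4 * n) ^ (4 * n)) ?_
                (Nat.pow_pos (by omega))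
              refine (choose_mul_pow_le _ _).trans (le_of_eq ?_)
              rw [← mul_pow]
              congr 1
              ring
      have h2 : (2 * t) ^ (4 * n) * G ≤ q ^ (4 * n) := by
        have h3 : (2 * t) ^ (4 * n) * 2 ^ (n + 1) * d ^ n ≤ q ^ n := by
          calc (2 * t) ^ (4 * n) * 2 ^ (n + 1) * d ^ n ≤ (2 * t) ^ (4 * n) * 2 ^ (2 * n) * d ^ n :=
                Nat.mul_le_mul_right _
                  (Nat.mul_le_mul_left _ (Nat.pow_le_pow_right (by norm_num) (by omega)))
            _ = (4 * d * (2 * t) ^ 4) ^ n := by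
                rw [mul_pow (4 * d), mul_pow 4 d, ← pow_mul, pow_mul 2 2 n]
                ring
            _ ≤ q ^ n := Nat.pow_le_pow_left (by omega) _
        calc (2 * t) ^ (4 * n) * G =
            q ^ (2 * n) * q ^ n * ((2 * t) ^ (4 * n) * 2 ^ (n + 1) * d ^ n) := by
              rw [hG]; ring
          _ ≤ q ^ (2 * n) * q ^ n * q ^ n := Nat.mul_le_mul_left _ h3
          _ = q ^ (4 * n) := by rw [← pow_add, ← pow_add]; congr 1; ring
      refine Nat.le_of_mul_le_mul_left (c := (2 * t) ^ (4 * n)) ?_ (Nat.pow_pos (by omega))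
      calc (2 * t) ^ (4 * n) * ((X1 β).card * G) = (X1 β).card * ((2 * t) ^ (4 * n) * G) := by ring
        _ ≤ (X1 β).card * q ^ (4 * n) := Nat.mul_le_mul_left _ h2
        _ ≤ _ := h1
    -- the exponent
    have h3 : n * n < 2 * g * (s + 1) := by
      rw [hs]
      exact Nat.lt_mul_div_succ _ (by omega)
    have hgn : 16 * (g * n) ≤ n * n := by
      calc 16 * (g * n) = (16 * g) * n := by ring
        _ ≤ n * n := Nat.mul_le_mul_right _ hn
    have h4 : 2 * g * (s + 1) = 2 * (g * s) + 2 * g := by ring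
    have h5 : g ≤ g * n := Nat.le_mul_of_pos_right _ hn1
    have h6 : 3 * n ≤ s := by
      by_contra hcon
      rw [not_le] at hcon
      have h7 : g * s ≤ g * (3 * n) := Nat.mul_le_mul_left _ hcon.le
      have h8 : g * (3 * n) = 3 * (g * n) := by ring
      omega
    obtain ⟨r, hr⟩ := Nat.exists_eq_add_of_le h6
    have h7 : n * n ≤ 4 * (g * r) := by
      have h8 : g * s = 3 * (g * n) + g * r := by rw [hr]; ring
      omega
    have h8 : 4 * n ≤ r := by
      by_contra hcon
      rw [not_le] at hcon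
      have h9 : g * r < g * (4 * n) := Nat.mul_lt_mul_of_pos_left hcon hg
      have h10 : g * (4 * n) = 4 * (g * n) := by ring
      omega
    have hs1 : 1 ≤ s := by omega
    have h9 : n * n ≤ 4 * g * s := by
      have h10 : g ≤ g * s := Nat.le_mul_of_pos_right _ hs1
      have h11 : 4 * g * s = 4 * (g * s) := by ring
      omega
    have hX2 : ∀ β, (X2 β).card * G ≤ C := by
      intro β
      have h1 : (X2 β).card * (q - 1) ^ s ≤ (16 * g) ^ s * C := by
        calc (X2 β).card * (q - 1) ^ s ≤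
            (∑ S ∈ powersetCard s (univ : Finset (Fin n × Fin n)),
              (univ.filter (fun b : Fin t → Pat n d q => ∀ e ∈ S, Ac p b β e)).card) *
                (q - 1) ^ s := Nat.mul_le_mul_right _ card_biUnion_le
          _ = ∑ S ∈ powersetCard s (univ : Finset (Fin n × Fin n)),
              (univ.filter (fun b : Fin t → Pat n d q => ∀ e ∈ S, Ac p b β e)).card *
                (q - 1) ^ s := by rw [sum_mul]
          _ ≤ ∑ _S ∈ powersetCard s (univ : Finset (Fin n × Fin n)), C := by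
              refine sum_le_sum fun S hS => ?_
              have h2 := card_accid (q := q) hd p β S
              rw [(mem_powersetCard.1 hS).2, ← hC] at h2
              exact h2
          _ = (powersetCard s (univ : Finset (Fin n × Fin n))).card * C := by
              rw [sum_const, smul_eq_mul]
          _ ≤ _ := by
              refine Nat.mul_le_mul_right _ ?_
              rw [card_powersetCard, card_univ, Fintype.card_prod, Fintype.card_fin]
              refine Nat.le_of_mul_le_mul_right (c := s ^ s) ?_ (Nat.pow_pos hs1)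
              refine (choose_mul_pow_le _ _).trans ?_
              rw [← mul_pow]
              refine Nat.pow_le_pow_left ?_ _
              calc 4 * (n * n) ≤ 4 * (4 * g * s) := Nat.mul_le_mul_left _ h9
                _ = _ := by ring
      have h2 : (16 * g) ^ s * G ≤ (q - 1) ^ s := by
        obtain ⟨Q, hQ⟩ : ∃ Q, Q = q - 1 := ⟨_, rfl⟩
        have hQ1 : (16 * g) ^ 2 * 4 * d ≤ Q := by
          have e1 : (2 * t) ^ 4 * 4 * d ≤ Q := by
            have : (2 * t) ^ 4 * 4 * d = 4 * d * (2 * t) ^ 4 := by ring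
            omega
          refine le_trans (Nat.mul_le_mul_right _ ?_) e1
          have e2 : 16 * g ≤ 2 * t := by
            rw [ht]
            have : g ≤ g ^ 2 := by nlinarith
            omega
          have e3 : (16 * g) ^ 2 ≤ (2 * t) ^ 2 := Nat.pow_le_pow_left e2 2
          have e4 : (2 * t) ^ 2 ≤ (2 * t) ^ 4 := Nat.pow_le_pow_right (by omega) (by norm_num)
          omega
        have hQ0 : 1 ≤ Q := by
          have : 0 < (16 * g) ^ 2 * 4 * d :=
            Nat.mul_pos (Nat.mul_pos (Nat.pow_pos (by omega)) (by norm_num)) hd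
          omega
        have hq2 : q ≤ 2 * Q := by omega
        have h10 : (16 * g) ^ s ≤ (16 * g) ^ (2 * r) := Nat.pow_le_pow_right (by omega) (by omega)
        have h11 : 2 ^ (4 * n + 1) ≤ 2 ^ (2 * r) := Nat.pow_le_pow_right (by norm_num) (by omega)
        have h12 : d ^ n ≤ d ^ r := Nat.pow_le_pow_right hd (by omega)
        calc (16 * g) ^ s * G = (16 * g) ^ s * (q ^ (3 * n) * 2 ^ (n + 1)) * d ^ n := by
              rw [hG]; ring
          _ ≤ (16 * g) ^ s * ((2 * Q) ^ (3 * n) * 2 ^ (n + 1)) * d ^ n :=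
              Nat.mul_le_mul_right _
                (Nat.mul_le_mul_left _ (Nat.mul_le_mul_right _ (Nat.pow_le_pow_left hq2 _)))
          _ = (16 * g) ^ s * 2 ^ (4 * n + 1) * d ^ n * Q ^ (3 * n) := by
              rw [mul_pow, show 4 * n + 1 = 3 * n + (n + 1) by ring, pow_add 2 (3 * n) (n + 1)]
              ring
          _ ≤ (16 * g) ^ (2 * r) * 2 ^ (2 * r) * d ^ r * Q ^ (3 * n) :=
              Nat.mul_le_mul_right _ (Nat.mul_le_mul (Nat.mul_le_mul h10 h11) h12)
          _ = ((16 * g) ^ 2 * 4 * d) ^ r * Q ^ (3 * n) := by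
              rw [mul_pow ((16 * g) ^ 2 * 4) d r, mul_pow ((16 * g) ^ 2) 4 r, ← pow_mul,
                pow_mul 2 2 r]
              norm_num
          _ ≤ Q ^ r * Q ^ (3 * n) := Nat.mul_le_mul_right _ (Nat.pow_le_pow_left hQ1 _)
          _ = Q ^ s := by rw [← pow_add, hr, add_comm]
          _ = _ := by rw [hQ]
      refine Nat.le_of_mul_le_mul_left (c := (16 * g) ^ s) ?_ (Nat.pow_pos (by omega))
      calc (16 * g) ^ s * ((X2 β).card * G) = (X2 β).card * ((16 * g) ^ s * G) := by ring
        _ ≤ (X2 β).card * (q - 1) ^ s := Nat.mul_le_mul_left _ h2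
        _ ≤ _ := h1
    have hqn : 0 < d ^ n * q ^ (2 * n) := Nat.mul_pos (Nat.pow_pos hd) (Nat.pow_pos hq1)
    have h3 : (univ.biUnion (fun β : Lb n d q => X1 β ∪ X2 β)).card * G ≤
        d ^ n * q ^ (2 * n) * (2 * C) := by
      calc (univ.biUnion (fun β : Lb n d q => X1 β ∪ X2 β)).card * G ≤
          (∑ β : Lb n d q, (X1 β ∪ X2 β).card) * G := Nat.mul_le_mul_right _ card_biUnion_le
        _ = ∑ β : Lb n d q, (X1 β ∪ X2 β).card * G := by rw [sum_mul]
        _ ≤ ∑ _β : Lb n d q, 2 * C := by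
            refine sum_le_sum fun β _ => ?_
            have e1 : (X1 β ∪ X2 β).card * G ≤ ((X1 β).card + (X2 β).card) * G :=
              Nat.mul_le_mul_right _ (card_union_le _ _)
            rw [add_mul] at e1
            have e2 := hX1 β
            have e3 := hX2 β
            omega
        _ = _ := by rw [sum_const, card_univ, card_lab, smul_eq_mul]
    refine Nat.le_of_mul_le_mul_left (c := d ^ n * q ^ (2 * n) * 2) ?_
      (Nat.mul_pos hqn (by norm_num))
    calc d ^ n * q ^ (2 * n) * 2 * ((univ.biUnion (fun β : Lb n d q => X1 β ∪ X2 β)).card *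
          (q ^ n * 2 ^ n)) = (univ.biUnion (fun β : Lb n d q => X1 β ∪ X2 β)).card * G := by
          rw [hG, pow_succ]; ring
      _ ≤ d ^ n * q ^ (2 * n) * (2 * C) := h3
      _ = _ := by ring

theorem main_gameq : ∃ Γ : ℕ, ∀ d g q n : ℕ, 1 ≤ d → 1 ≤ g → Γ * d * g ^ 8 ≤ q →
    Γ * g ^ 4 ≤ n →
    ∀ (μ : ℕ) (R : Type) [Fintype R] [Nonempty R] (K W : R → Type) [∀ ρ, Field (K ρ)]
      [∀ ρ, Fintype (W ρ)] (T : ∀ ρ, Net (K ρ) (Fin n × Fin n) (DToOne d q) (W ρ))
      (a : ∀ ρ, W ρ → K ρ),
      (∀ ρ e, (T ρ).reads e ≤ 1) →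
      (∀ ρ x, ValueLe g x → (T ρ).value (a ρ) x = 0) →
      (∀ x, ValueOne x →
        Nat.card R ≤ 2 ^ μ * Nat.card {ρ // (T ρ).value (a ρ) x ≠ 0}) →
      ∃ ρ, q ^ n ≤ (2 ^ μ * Fintype.card (W ρ)) ^ (Γ * g ^ 2) := by
  classical
  refine ⟨2 ^ 60, fun d g q n hd hg hqg hng μ R _ _ K W _ _ T a h1 hno hyes => ?_⟩
  obtain ⟨t, ht⟩ : ∃ t, t = 2048 * g ^ 2 + 1 := ⟨_, rfl⟩
  have hg2 : 1 ≤ g ^ 2 := Nat.one_le_pow _ _ hg
  have htg : t ≤ 2 ^ 12 * g ^ 2 := by omega
  have hq : 4 * d * (2 * t) ^ 4 + 1 ≤ q := by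
    have e1 : (2 * t) ^ 4 ≤ (2 ^ 13 * g ^ 2) ^ 4 := Nat.pow_le_pow_left (by omega) 4
    have e2 : (2 ^ 13 * g ^ 2) ^ 4 = 2 ^ 52 * g ^ 8 := by ring
    rw [e2] at e1
    have e3 : 1 ≤ d * g ^ 8 := Nat.mul_pos hd (Nat.one_le_pow _ _ hg)
    have e4 : 4 * d * (2 * t) ^ 4 ≤ 4 * d * (2 ^ 52 * g ^ 8) := Nat.mul_le_mul_left _ e1
    have e5 : 4 * d * (2 ^ 52 * g ^ 8) = 2 ^ 54 * (d * g ^ 8) := by ring
    have e6 : 2 ^ 60 * d * g ^ 8 = 2 ^ 60 * (d * g ^ 8) := by ring
    rw [e5] at e4
    rw [e6] at hqg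
    omega
  have hnD : 16 * g + 3 * (t + 1) + (t + 1) * (t + 4) ≤ n := by
    have e1 : g ≤ g ^ 4 := Nat.le_self_pow (by norm_num) g
    have e2 : g ^ 2 ≤ g ^ 4 := Nat.pow_le_pow_right hg (by norm_num)
    have e3 : (t + 1) * (t + 4) ≤ (2 ^ 13 * g ^ 2) * (2 ^ 15 * g ^ 2) :=
      Nat.mul_le_mul (by omega) (by omega)
    have e4 : (2 ^ 13 * g ^ 2) * (2 ^ 15 * g ^ 2) = 2 ^ 28 * g ^ 4 := by ring
    rw [e4] at e3
    omega
  obtain ⟨y, hy⟩ : ∃ y, y = n / (16 * g) := ⟨_, rfl⟩
  have hy1 : 1 ≤ y := by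
    rw [hy]
    exact Nat.div_pos (by omega) (by omega)
  have hyn : 16 * g * y ≤ n := by
    rw [hy]
    exact Nat.mul_div_le n _
  have hny : n < 16 * g * (y + 1) := by
    rw [hy]
    exact Nat.lt_mul_div_succ n (by omega)
  have hn1 : 1 ≤ n := by omega
  have hq0 : 1 ≤ q := by
    omega
  have : Nonempty (Fin q) := ⟨⟨0, hq0⟩⟩
  have hM : Nonempty (DToOne d q) := ⟨⟨fun a => (finProdFinEquiv.symm a).2, fun b => by
    have h2 : Nat.card {a : Fin (d * q) // (finProdFinEquiv.symm a).2 = b} ≤ Nat.card (Fin d) := by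
      refine Nat.card_le_card_of_injective (fun a => (finProdFinEquiv.symm a.1).1) ?_
      intro a a' h
      apply Subtype.ext
      apply finProdFinEquiv.symm.injective
      exact Prod.ext h (a.2.trans a'.2.symm)
    rwa [Nat.card_fin] at h2⟩⟩
  have : Nonempty (Fin (d * q)) := ⟨⟨0, Nat.mul_pos hd hq0⟩⟩
  have hE : 2 * Fintype.card (Fin n × Fin n) + y ^ 2 ≤ y ^ 2 * t := by
    rw [Fintype.card_prod, Fintype.card_fin, ht]
    have e1 : n ≤ 32 * g * y := by nlinarith
    have e2 : n * n ≤ (32 * g * y) * (32 * g * y) := Nat.mul_le_mul e1 e1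
    calc 2 * (n * n) + y ^ 2 ≤ 2 * ((32 * g * y) * (32 * g * y)) + y ^ 2 :=
          Nat.add_le_add_right (Nat.mul_le_mul_left _ e2) _
      _ = _ := by ring
  obtain ⟨ρ, hρ, hw1⟩ := rand_density μ R K W T a h1 (θ := y ^ 2) (t := t)
    (Nat.one_le_pow _ _ hy1) (by omega) hE (U := Pat n d q) gm
    (univ : Finset (Pat n d q)) (η := 0) (by rw [card_univ, pow_zero, one_mul])
    (fun P _ => hyes _ (gm_valueOne P)) (N := q ^ n * 2 ^ n) (fun ρ p hp => by
        obtain ⟨B, hB1, hB2⟩ := few_badq (q := q) hd hg (by omega) hyn ht hq p hp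
        exact ⟨B, fun b hb => hB1 b fun hv => hb (hno ρ _ hv), hB2⟩)
  refine ⟨ρ, ?_⟩
  obtain ⟨w, hw⟩ : ∃ w, w = Fintype.card (W ρ) := ⟨_, rfl⟩
  rw [← hw] at hρ hw1 ⊢
  obtain ⟨X, hX⟩ : ∃ X, X = 2 ^ μ * w := ⟨_, rfl⟩
  have hX1 : 1 ≤ X := by
    rw [hX]
    exact Nat.mul_pos (Nat.pow_pos (by norm_num)) hw1
  rw [← hX]
  have e1 : 2 ^ (μ + 0 + 1) * (t * w ^ 3) ≤ 2 ^ (t + 4) * X ^ 3 := by
    have e2 : t ≤ 2 ^ t := Nat.lt_two_pow_self.le
    have e3 : 2 ^ μ ≤ (2 ^ μ) ^ 3 := by
      conv_lhs => rw [← pow_one (2 ^ μ)]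
      exact Nat.pow_le_pow_right (Nat.pow_pos (by norm_num)) (by norm_num)
    calc 2 ^ (μ + 0 + 1) * (t * w ^ 3) = 2 * (2 ^ μ * (t * w ^ 3)) := by
          rw [add_zero, pow_succ]; ring
      _ ≤ 16 * ((2 ^ μ) ^ 3 * (2 ^ t * w ^ 3)) := by
        refine Nat.mul_le_mul (by norm_num) (Nat.mul_le_mul e3 (Nat.mul_le_mul_right _ e2))
      _ = _ := by rw [hX, pow_add]; ring
  have e4 : q ^ n * 2 ^ n ≤ 2 ^ ((t + 4) * (t + 1)) * X ^ (3 * (t + 1)) := by
    calc q ^ n * 2 ^ n ≤ (2 ^ (t + 4) * X ^ 3) ^ (t + 1) := hρ.trans (Nat.pow_le_pow_left e1 _)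
      _ = _ := by rw [mul_pow, ← pow_mul, ← pow_mul]
  have e5 : 2 ^ ((t + 4) * (t + 1)) ≤ 2 ^ n := by
    refine Nat.pow_le_pow_right (by norm_num) ?_
    have : (t + 4) * (t + 1) = (t + 1) * (t + 4) := mul_comm _ _
    omega
  have e6 : q ^ n ≤ X ^ (3 * (t + 1)) := by
    refine Nat.le_of_mul_le_mul_right (c := 2 ^ n) ?_ (by positivity)
    refine (e4.trans (Nat.mul_le_mul_right _ e5)).trans (le_of_eq ?_)
    ring
  exact e6.trans (Nat.pow_le_pow_right hX1 (by omega))



/-- Conversely the satisfying labelings are counted by linear networks. -/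
theorem upper_game (d q : ℕ) {n : ℕ} (hn : 1 ≤ n) :
    ∃ (T : Net ℚ (Fin n × Fin n) (DToOne d q) (Lb n d q)) (a : Lb n d q → ℚ),
      T.Linear ∧ (∀ e, T.reads e = 1) ∧ T.size = 2 * (n * n) - 1 ∧
        ∀ x, T.value a x = (Nat.card {β : Lb n d q // ∀ e, Satd x β.1 β.2 e} : ℚ) := by
  classical
  have : Nonempty (Fin n) := ⟨⟨0, hn⟩⟩
  obtain ⟨T, h1, h2, h3, h4⟩ := exists_product (K := ℚ)
    (fun (e : Fin n × Fin n) (ω : DToOne d q) (β : Lb n d q) =>
      if ω.1 (β.1 e.1) = β.2 e.2 then (1 : ℚ) else 0)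
  refine ⟨T, fun _ => 1, h1, h2, ?_, fun x => ?_⟩
  · rw [h3, Fintype.card_prod, Fintype.card_fin]
  · have h5 : ∀ β : Lb n d q, T.eval x β = if ∀ e, Satd x β.1 β.2 e then 1 else 0 := by
      intro β
      rw [h4]
      by_cases hβ : ∀ e, Satd x β.1 β.2 e
      · rw [if_pos hβ]
        exact prod_eq_one fun e _ => if_pos (hβ e)
      · rw [if_neg hβ]
        push Not at hβ
        obtain ⟨e, he⟩ := hβ
        exact prod_eq_zero (mem_univ e) (if_neg he)
    unfold Net.value
    rw [Nat.card_eq_fintype_card, Fintype.card_subtype, card_filter]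
    push_cast
    refine sum_congr rfl fun β _ => ?_
    rw [h5, one_mul]

end Pool.Agent.V11163.DG
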