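import Mathlib.SetTheory.Cardinal.Finite
import Mathlib.Data.Fintype.Pi
import Mathlib.Logic.Equiv.Basic
import Mathlib.Algebra.Group.Action.Defs
import Mathlib.Algebra.Module.Defs
import Mathlib.Algebra.BigOperators.Ring.Finset
import Mathlib.Algebra.BigOperators.Field
import Mathlib.Algebra.Order.BigOperators.Group.Finset
import Mathlib.Data.Fintype.EquivFin
import Mathlib.Tactic.Linarith
import Mathlib.Tactic.Ring

/-!
# `d`-to-1 games on complete bipartite graphs, and counting the `d`-to-1 maps
-/

set_option autoImplicit false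

open Finset

namespace Pool.Agent.V11163.DG

/-- The maps from `d q` labels to `q` labels for which every fiber has at most `d` elements. -/
def DToOne (d q : ℕ) : Type := {f : Fin (d * q) → Fin q // ∀ b, Nat.card {a // f a = b} ≤ d}

/-- The labeling `LU`, `LV` satisfies the edge `e` of the game `x`: a constraint map for every pair
of a vertex with `d q` labels and a vertex with `q` labels. -/
def Satd {n d q : ℕ} (x : Fin n × Fin n → DToOne d q) (LU : Fin n → Fin (d * q))
    (LV : Fin n → Fin q) (e : Fin n × Fin n) : Prop :=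
  (x e).1 (LU e.1) = LV e.2

/-- The game has value 1. -/
def ValueOne {n d q : ℕ} (x : Fin n × Fin n → DToOne d q) : Prop :=
  ∃ (LU : Fin n → Fin (d * q)) (LV : Fin n → Fin q), ∀ e, Satd x LU LV e

/-- The game has value at most `1 / g`. -/
def ValueLe {n d q : ℕ} (g : ℕ) (x : Fin n × Fin n → DToOne d q) : Prop :=
  ∀ (LU : Fin n → Fin (d * q)) (LV : Fin n → Fin q), g * Nat.card {e // Satd x LU LV e} ≤ n * n

variable {d q : ℕ}

noncomputable instance : Fintype (DToOne d q) := by
  classical
  unfold DToOne
  infer_instance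

/-- Composition with a permutation of the values. -/
def post (σ : Equiv.Perm (Fin q)) (ω : DToOne d q) : DToOne d q :=
  ⟨fun i => σ (ω.1 i), fun b => by
    have h1 : Nat.card {a // σ (ω.1 a) = b} = Nat.card {a // ω.1 a = σ.symm b} :=
      Nat.card_congr (Equiv.subtypeEquivRight fun a => by rw [Equiv.eq_symm_apply])
    rw [h1]
    exact ω.2 _⟩

/-- Composition with a permutation of the arguments. -/
def pre (σ : Equiv.Perm (Fin (d * q))) (ω : DToOne d q) : DToOne d q :=
  ⟨fun i => ω.1 (σ i), fun b => by
    have h1 : Nat.card {a // ω.1 (σ a) = b} = Nat.card {a // ω.1 a = b} :=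
      Nat.card_congr (σ.subtypeEquiv fun a => Iff.rfl)
    rw [h1]
    exact ω.2 _⟩

theorem post_injective (σ : Equiv.Perm (Fin q)) : Function.Injective (post (d := d) σ) := by
  intro ω ω' h
  refine Subtype.ext (funext fun i => ?_)
  have h1 := congrFun (congrArg Subtype.val h) i
  exact σ.injective h1

theorem pre_injective (σ : Equiv.Perm (Fin (d * q))) : Function.Injective (pre σ) := by
  intro ω ω' h
  refine Subtype.ext (funext fun i => ?_)
  have h1 := congrFun (congrArg Subtype.val h) (σ.symm i)
  have h2 : ω.1 (σ (σ.symm i)) = ω'.1 (σ (σ.symm i)) := h1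
  rwa [Equiv.apply_symm_apply] at h2

/-- The two values are nearly independent. -/
theorem card_two (hd : 1 ≤ d) {a a' : Fin (d * q)} (haa : a ≠ a') (c c' : Fin q) :
    (q - 1) * (univ.filter (fun ω : DToOne d q => ω.1 a = c ∧ ω.1 a' = c')).card ≤
      (univ.filter (fun ω : DToOne d q => ω.1 a = c)).card := by
  classical
  by_cases hcd : c' = c
  · subst hcd
    have h1 : ∀ a'' ∈ (univ : Finset (Fin (d * q))).erase a,
        (univ.filter (fun ω : DToOne d q => ω.1 a = c' ∧ ω.1 a' = c')).card ≤
        (univ.filter (fun ω : DToOne d q => ω.1 a = c' ∧ ω.1 a'' = c')).card := by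
      intro a'' ha''
      rw [mem_erase] at ha''
      refine card_le_card_of_injOn (pre (Equiv.swap a' a'')) (fun ω hω => ?_)
        (pre_injective _).injOn
      rw [mem_coe, mem_filter] at hω ⊢
      refine ⟨mem_univ _, ?_, ?_⟩
      · show ω.1 (Equiv.swap a' a'' a) = c'
        rw [Equiv.swap_apply_of_ne_of_ne haa ha''.1.symm]
        exact hω.2.1
      · show ω.1 (Equiv.swap a' a'' a'') = c'
        rw [Equiv.swap_apply_right]
        exact hω.2.2
    have h2 : ∑ a'' ∈ (univ : Finset (Fin (d * q))).erase a,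
        (univ.filter (fun ω : DToOne d q => ω.1 a = c' ∧ ω.1 a'' = c')).card ≤
        (d - 1) * (univ.filter (fun ω : DToOne d q => ω.1 a = c')).card := by
      have h3 : ∀ a'' : Fin (d * q),
          (univ.filter (fun ω : DToOne d q => ω.1 a = c' ∧ ω.1 a'' = c')).card =
          ∑ ω ∈ univ.filter (fun ω : DToOne d q => ω.1 a = c'),
            if ω.1 a'' = c' then 1 else 0 := by
        intro a''
        rw [← filter_filter, card_filter]
      rw [sum_congr rfl fun a'' _ => h3 a'', sum_comm]
      refine le_trans (sum_le_card_nsmul _ _ (d - 1) fun ω hω => ?_) (le_of_eq (by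
        rw [smul_eq_mul, mul_comm]))
      rw [← card_filter]
      have h4 := ω.2 c'
      rw [Nat.card_eq_fintype_card, Fintype.card_subtype] at h4
      have h5 : ((univ : Finset (Fin (d * q))).erase a).filter (fun a'' => ω.1 a'' = c') =
          (univ.filter (fun a'' => ω.1 a'' = c')).erase a := by
        ext i
        simp only [mem_filter, mem_erase, mem_univ, true_and]
        tauto
      rw [h5, card_erase_of_mem (by
        rw [mem_filter]
        exact ⟨mem_univ _, (mem_filter.1 hω).2⟩)]
      omega
    obtain ⟨X, hX⟩ : ∃ X, X =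
      (univ.filter (fun ω : DToOne d q => ω.1 a = c' ∧ ω.1 a' = c')).card := ⟨_, rfl⟩
    obtain ⟨Y, hY⟩ : ∃ Y, Y = (univ.filter (fun ω : DToOne d q => ω.1 a = c')).card := ⟨_, rfl⟩
    have h3 : (d * q - 1) * X ≤ (d - 1) * Y := by
      rw [hX, hY]
      calc (d * q - 1) * (univ.filter (fun ω : DToOne d q => ω.1 a = c' ∧ ω.1 a' = c')).card =
          ∑ _a'' ∈ (univ : Finset (Fin (d * q))).erase a,
            (univ.filter (fun ω : DToOne d q => ω.1 a = c' ∧ ω.1 a' = c')).card := by
            rw [sum_const, card_erase_of_mem (mem_univ _), card_univ, Fintype.card_fin,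
              smul_eq_mul]
        _ ≤ _ := (sum_le_sum h1).trans h2
    rw [← hX, ← hY]
    obtain ⟨d', rfl⟩ : ∃ d', d = d' + 1 := ⟨d - 1, by omega⟩
    rw [Nat.add_sub_cancel] at h3
    have h4 : d' * (q - 1) ≤ (d' + 1) * q - 1 := by
      rcases Nat.eq_zero_or_pos q with h0 | h0
      · subst h0
        simp
      · obtain ⟨q', rfl⟩ : ∃ q', q = q' + 1 := ⟨q - 1, by omega⟩
        have : (d' + 1) * (q' + 1) = d' * q' + d' + q' + 1 := by ring
        rw [this, Nat.add_sub_cancel, Nat.add_sub_cancel]
        omega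
    rcases Nat.eq_zero_or_pos d' with h0 | h0
    · subst h0
      rw [zero_add, one_mul, zero_mul] at h3
      omega
    · refine Nat.le_of_mul_le_mul_left (c := d') ?_ h0
      calc d' * ((q - 1) * X) = d' * (q - 1) * X := by ring
        _ ≤ ((d' + 1) * q - 1) * X := Nat.mul_le_mul_right _ h4
        _ ≤ _ := h3
  · have h1 : ∀ d' ∈ (univ : Finset (Fin q)).erase c,
        (univ.filter (fun ω : DToOne d q => ω.1 a = c ∧ ω.1 a' = c')).card ≤
        (univ.filter (fun ω : DToOne d q => ω.1 a = c ∧ ω.1 a' = d')).card := by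
      intro d' hd'
      rw [mem_erase] at hd'
      refine card_le_card_of_injOn (post (Equiv.swap c' d')) (fun ω hω => ?_)
        (post_injective _).injOn
      rw [mem_coe, mem_filter] at hω ⊢
      refine ⟨mem_univ _, ?_, ?_⟩
      · show Equiv.swap c' d' (ω.1 a) = c
        rw [hω.2.1, Equiv.swap_apply_of_ne_of_ne (Ne.symm hcd) hd'.1.symm]
      · show Equiv.swap c' d' (ω.1 a') = d'
        rw [hω.2.2, Equiv.swap_apply_left]
    have h2 : ∑ d' ∈ (univ : Finset (Fin q)).erase c,
        (univ.filter (fun ω : DToOne d q => ω.1 a = c ∧ ω.1 a' = d')).card ≤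
        (univ.filter (fun ω : DToOne d q => ω.1 a = c)).card := by
      rw [← card_biUnion]
      · refine card_le_card fun ω hω => ?_
        obtain ⟨d', -, h⟩ := mem_biUnion.1 hω
        exact mem_filter.2 ⟨mem_univ _, (mem_filter.1 h).2.1⟩
      · intro d₁ _ d₂ _ hne
        rw [Function.onFun, disjoint_left]
        intro ω h₁ h₂
        exact hne ((mem_filter.1 h₁).2.2.symm.trans (mem_filter.1 h₂).2.2)
    calc (q - 1) * (univ.filter (fun ω : DToOne d q => ω.1 a = c ∧ ω.1 a' = c')).card =
        ∑ _d' ∈ (univ : Finset (Fin q)).erase c,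
          (univ.filter (fun ω : DToOne d q => ω.1 a = c ∧ ω.1 a' = c')).card := by
          rw [sum_const, card_erase_of_mem (mem_univ _), card_univ, Fintype.card_fin, smul_eq_mul]
      _ ≤ _ := (sum_le_sum h1).trans h2

/-- The map corrected such that the value at `a` is `b`. -/
def fix (ω : DToOne d q) (a : Fin (d * q)) (b : Fin q) : DToOne d q :=
  post (Equiv.swap (ω.1 a) b) ω

theorem fix_self (ω : DToOne d q) (a : Fin (d * q)) (b : Fin q) : (fix ω a b).1 a = b :=
  Equiv.swap_apply_left _ _

/-- The values of the corrected map at the other places are nearly uniform. -/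
theorem card_fix (hd : 1 ≤ d) {a a' : Fin (d * q)} (haa : a ≠ a') (b b' : Fin q) :
    (q - 1) * (univ.filter (fun ω : DToOne d q => (fix ω a b).1 a' = b')).card ≤
      Fintype.card (DToOne d q) := by
  classical
  have h1 : (univ.filter (fun ω : DToOne d q => (fix ω a b).1 a' = b')).card =
      ∑ c : Fin q, (univ.filter (fun ω : DToOne d q => ω.1 a = c ∧
        ω.1 a' = Equiv.swap c b b')).card := by
    rw [card_eq_sum_card_fiberwise (f := fun ω : DToOne d q => ω.1 a) (t := univ)
      (fun _ _ => mem_univ _)]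
    refine sum_congr rfl fun c _ => ?_
    congr 1
    ext ω
    simp only [mem_filter, mem_univ, true_and]
    constructor
    · rintro ⟨h, rfl⟩
      refine ⟨rfl, ?_⟩
      have h2 : Equiv.swap (ω.1 a) b (ω.1 a') = b' := h
      rw [← h2, Equiv.swap_apply_self]
    · rintro ⟨rfl, h⟩
      refine ⟨?_, rfl⟩
      show Equiv.swap (ω.1 a) b (ω.1 a') = b'
      rw [h, Equiv.swap_apply_self]
  have h2 : ∑ c : Fin q, (univ.filter (fun ω : DToOne d q => ω.1 a = c)).card =
      Fintype.card (DToOne d q) := by
    rw [← card_univ, card_eq_sum_card_fiberwise (f := fun ω : DToOne d q => ω.1 a) (t := univ)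
      (fun _ _ => mem_univ _)]
  rw [h1, mul_sum, ← h2]
  exact sum_le_sum fun c _ => card_two hd haa _ _

end Pool.Agent.V11163.DG
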